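import Mathlib
import Pool.Agent.E139.Fin

/-!
# Many sums `k + m` with `π(2k) - π(k)` and `π(2m) - π(m)` both prime

For a constant `c > 0` and all large `X`, at least `c X / (log log X)²` of the integers `n ≤ X` are
sums `n = k + m` of positive integers such that the numbers of primes in `(k, 2k]` and in `(m, 2m]`
are both prime.
-/

open Filter

namespace Pool.Agent.Results.MP_e139c2_nt.BothPrime

/-- `f k = π(2k) - π(k)`, the number of primes in `(k, 2k]` -/
def f (k : ℕ) : ℕ := Nat.primeCounting (2 * k) - Nat.primeCounting k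

theorem result : ∃ c : ℝ, 0 < c ∧ ∃ X₀ : ℕ, ∀ X : ℕ, X₀ ≤ X →
    c * ((X : ℝ) / (Real.log (Real.log X)) ^ 2) ≤
      (Set.ncard {n : ℕ | n ≤ X ∧ ∃ k m : ℕ, 0 < k ∧ 0 < m ∧ k + m = n ∧ (f k).Prime ∧
        (f m).Prime} : ℝ) := by
  obtain ⟨c, hc, h⟩ := Pool.Agent.E139.final
  obtain ⟨X₀, hX⟩ := eventually_atTop.mp h
  exact ⟨c, hc, X₀, fun X hX' => (hX X hX').1⟩

end Pool.Agent.Results.MP_e139c2_nt.BothPrime
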