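import Mathlib
import Pool.Agent.E139.Fin

/-!
# Many sums `k + m` with `π(2k) - π(k)` prime and `π(2m) - π(m)` a square

For a constant `c > 0` and all large `X`, at least `c X / (log X · √(log log X))` of the integers
`n ≤ X` are sums `n = k + m` of positive integers such that the number of primes in `(k, 2k]` is
prime and the number of primes in `(m, 2m]` is a perfect square.
-/

open Filter

namespace Pool.Agent.Results.MP_e139c2_nt.PrimeAndSquare

/-- `f k = π(2k) - π(k)`, the number of primes in `(k, 2k]` -/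
def f (k : ℕ) : ℕ := Nat.primeCounting (2 * k) - Nat.primeCounting k

theorem result : ∃ c : ℝ, 0 < c ∧ ∃ X₀ : ℕ, ∀ X : ℕ, X₀ ≤ X →
    c * ((X : ℝ) / (Real.log X * Real.sqrt (Real.log (Real.log X)))) ≤
      (Set.ncard {n : ℕ | n ≤ X ∧ ∃ k m : ℕ, 0 < k ∧ 0 < m ∧ k + m = n ∧ (f k).Prime ∧
        IsSquare (f m)} : ℝ) := by
  obtain ⟨c, hc, h⟩ := Pool.Agent.E139.final
  obtain ⟨X₀, hX⟩ := eventually_atTop.mp h
  exact ⟨c, hc, X₀, fun X hX' => (hX X hX').2⟩

end Pool.Agent.Results.MP_e139c2_nt.PrimeAndSquare
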